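import Pool.Agent.H146Z.BiDefs
import Pool.Agent.H259Z.Rich.Bi

set_option autoImplicit false

namespace Pool.Agent.Results.MP_9cc2ee_lc.AllClasses

open Pool.Agent.H146Z.BiDefs

/-- For finite `n ≥ 2` and `d ≥ 2` the free solvable group of rank `n` and class `d` is
bi-interpretable (with parameters) with the natural numbers. -/
theorem result (n d : ℕ) (hn : 2 ≤ n) (hd : 2 ≤ d) :
    BiInterp Lgrp Lar (FreeGroup (Fin n) ⧸ derivedSeries (FreeGroup (Fin n)) d) ℕ := by
  obtain ⟨e, rfl⟩ : ∃ e, d = e + 2 := ⟨d - 2, by omega⟩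
  exact Pool.Agent.H259Z.Rich.biInterp_fs hn e

end Pool.Agent.Results.MP_9cc2ee_lc.AllClasses
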